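import Pool.Agent.helper28.EG.Spec

set_option autoImplicit false

open Complex Metric Set Filter Topology MeasureTheory
open WP (it)

noncomputable section

namespace EG

theorem COT_aux1 (x : ℝ) (hx : 0 ≤ x) : 2 * (Real.exp x - 1) ≤ (Real.exp x + 1) * x := by
  have hmono : MonotoneOn (fun t : ℝ => (t - 2) * Real.exp t + t + 2) (Ici 0) := by
    apply monotoneOn_of_deriv_nonneg (convex_Ici 0)
    · fun_prop
    · fun_prop
    · intro t ht
      have hd : HasDerivAt (fun t : ℝ => (t - 2) * Real.exp t + t + 2)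
          (1 * Real.exp t + (t - 2) * Real.exp t + 1) t := by
        exact ((((hasDerivAt_id t).sub_const 2).mul (Real.hasDerivAt_exp t)).add (hasDerivAt_id t)).add_const 2
      rw [hd.deriv]
      have h1 : 1 - t ≤ Real.exp (-t) := by
        have := Real.add_one_le_exp (-t)
        linarith
      have h2 : (1 - t) * Real.exp t ≤ Real.exp (-t) * Real.exp t :=
        mul_le_mul_of_nonneg_right h1 (Real.exp_pos t).le
      rw [← Real.exp_add, neg_add_cancel, Real.exp_zero] at h2
      nlinarith [h2]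
  have h := hmono (mem_Ici.2 le_rfl) (mem_Ici.2 hx) hx
  simp only [Real.exp_zero] at h
  nlinarith [h]

theorem COT_aux2 (x : ℝ) (hx : 0 ≤ x) : 2 * x * Real.exp x ≤ Real.exp x ^ 2 - 1 := by
  have h := Real.self_le_sinh_iff.2 hx
  rw [Real.sinh_eq] at h
  have h2 : x * (2 * Real.exp x) ≤ (Real.exp x - Real.exp (-x)) / 2 * (2 * Real.exp x) :=
    mul_le_mul_of_nonneg_right h (by positivity)
  have h3 : Real.exp (-x) * Real.exp x = 1 := by
    rw [← Real.exp_add, neg_add_cancel, Real.exp_zero]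
  nlinarith [h2, h3]

theorem COT : COT_stmt := by
  intro X hX
  set x := X.re with hx
  set y := X.im with hy
  set E := Real.exp x with hE
  have hE1 : 1 < E := Real.one_lt_exp_iff.2 hX
  have hre : (Complex.exp X - 1).re = E * Real.cos y - 1 := by
    rw [Complex.sub_re, Complex.exp_re]; simp [hE, hx, hy]
  have him : (Complex.exp X - 1).im = E * Real.sin y := by
    rw [Complex.sub_im, Complex.exp_im]; simp [hE, hx, hy]
  have hcs := Real.sin_sq_add_cos_sq y
  have hD : Complex.normSq (Complex.exp X - 1) = E ^ 2 - 2 * E * Real.cos y + 1 := by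
    rw [Complex.normSq_apply, hre, him]
    nlinarith [hcs]
  set D := E ^ 2 - 2 * E * Real.cos y + 1 with hDd
  have hcos : Real.cos y ≤ 1 := Real.cos_le_one y
  have hDpos : 0 < D := by
    have : (E - 1) ^ 2 ≤ D := by rw [hDd]; nlinarith
    have h2 : 0 < (E - 1) ^ 2 := by have : 0 < E - 1 := by linarith
                                    positivity
    linarith
  have hrhs : (1 / (Complex.exp X - 1)).re + 1 / 2 = (E ^ 2 - 1) / (2 * D) := by
    rw [one_div, Complex.inv_re, hD, hre]
    field_simp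
    rw [hDd]; ring
  have hn : ‖X‖ ^ 2 = x ^ 2 + y ^ 2 := by
    rw [← Complex.normSq_eq_norm_sq, Complex.normSq_apply]; ring
  rw [hrhs, hn]
  have hxpos : 0 < x := hX
  have hden : 0 < x ^ 2 + y ^ 2 := by positivity
  rw [div_le_div_iff₀ hden (by positivity)]
  have hc2 : 1 - y ^ 2 / 2 ≤ Real.cos y := Real.one_sub_sq_div_two_le_cos
  have hD2 : D ≤ (E - 1) ^ 2 + E * y ^ 2 := by
    rw [hDd]
    have := mul_le_mul_of_nonneg_left hc2 (by linarith : (0:ℝ) ≤ 2 * E)
    nlinarith
  have ha := COT_aux1 x hxpos.le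
  have hb := COT_aux2 x hxpos.le
  rw [← hE] at ha hb
  have h1 : x * (2 * ((E - 1) ^ 2 + E * y ^ 2)) ≤ (E ^ 2 - 1) * (x ^ 2 + y ^ 2) := by
    have e1 : (E - 1) * x * (2 * (E - 1)) ≤ (E - 1) * x * ((E + 1) * x) :=
      mul_le_mul_of_nonneg_left ha (mul_nonneg (by linarith) hxpos.le)
    have e2 : y ^ 2 * (2 * x * E) ≤ y ^ 2 * (E ^ 2 - 1) :=
      mul_le_mul_of_nonneg_left hb (sq_nonneg y)
    nlinarith [e1, e2]
  calc x * (2 * D) ≤ x * (2 * ((E - 1) ^ 2 + E * y ^ 2)) := by
        apply mul_le_mul_of_nonneg_left _ hxpos.le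
        linarith
    _ ≤ _ := h1

end EG
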