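import Pool.Agent.helper28.EG.SpecP

set_option autoImplicit false

open Complex Metric Set Filter Topology MeasureTheory
open WP (it)

noncomputable section

namespace EG

theorem PAL (hPIT : PIT_stmt) : PAL_stmt := by
  intro g p ν h hpar
  obtain ⟨δ₁, hδ₁, hαδ, hP⟩ := hPIT g p ν h hpar
  refine ⟨δ₁, hδ₁, ?_⟩
  intro δ hδ hδ1
  set α := ‖h p‖ with hα
  have hαpos : 0 < α := norm_pos_iff.2 hpar.h0
  refine ⟨9 / 10 * α * δ * ((100 / 111 : ℝ) ^ 2) ^ (ν + 1), by positivity, ?_⟩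
  intro l b v hl hb hlb hv htend hv0
  have hev : ∃ N : ℕ, ∀ s ≥ N, ‖v s - p‖ ≤ b := by
    have h1 := (Metric.tendsto_atTop.1 htend) b hb
    obtain ⟨N, hN⟩ := h1
    exact ⟨N, fun s hs => by have := hN s hs; rw [dist_eq_norm] at this; exact this.le⟩
  classical
  set N := Nat.find hev with hN
  have hNs := Nat.find_spec hev
  rw [← hN] at hNs
  have hN0 : N ≠ 0 := by
    intro h0
    have := hNs 0 (by omega)
    linarith
  obtain ⟨T, hT⟩ : ∃ T, N = T + 1 := ⟨N - 1, by omega⟩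
  have hTb : b < ‖v T - p‖ := by
    have h1 := Nat.find_min hev (m := T) (by omega)
    push Not at h1
    obtain ⟨s, hs, hs2⟩ := h1
    rcases Nat.lt_or_ge T s with h3 | h3
    · have := hNs s (by omega)
      linarith
    · have : s = T := by omega
      rwa [this] at hs2
  rw [hT] at hNs
  have key : ∀ t, T ≤ t → ‖v t - v (t + 1)‖ ≤ 11 / 10 * (l * (α * ‖v (t + 1) - p‖ ^ (ν + 1))) ∧
      9 / 10 * (l * (α * ‖v (t + 1) - p‖ ^ (ν + 1))) ≤ ‖v t - v (t + 1)‖ := by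
    intro t ht
    have h1 : ‖v (t + 1) - p‖ ≤ b := hNs (t + 1) (by omega)
    have h2 : (l : ℝ) * ‖v (t + 1) - p‖ ^ ν ≤ δ₁ := by
      calc (l : ℝ) * ‖v (t + 1) - p‖ ^ ν ≤ l * b ^ ν := by gcongr
        _ ≤ δ₁ := by rw [hlb]; exact hδ1
    have h3 := hP l (v (t + 1)) h2
    rw [hv t] at h3
    have h4 : ‖(l : ℂ) * (h p * (v (t + 1) - p) ^ (ν + 1))‖ = l * (α * ‖v (t + 1) - p‖ ^ (ν + 1)) := by
      rw [norm_mul, norm_mul, norm_pow, Complex.norm_natCast]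
    set X : ℂ := (l : ℂ) * (h p * (v (t + 1) - p) ^ (ν + 1)) with hX
    have h5 : ‖v t - v (t + 1)‖ ≤ ‖v t - v (t + 1) - X‖ + ‖X‖ := by
      calc ‖v t - v (t + 1)‖ = ‖(v t - v (t + 1) - X) + X‖ := by congr 1; ring
        _ ≤ _ := norm_add_le _ _
    have h6 : ‖X‖ ≤ ‖v t - v (t + 1)‖ + ‖v t - v (t + 1) - X‖ := by
      calc ‖X‖ = ‖(v t - v (t + 1)) - (v t - v (t + 1) - X)‖ := by congr 1; ring
        _ ≤ _ := norm_sub_le _ _
    rw [h4] at h5 h6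
    constructor
    · linarith
    · linarith
  have step : ∀ t, T ≤ t → ‖v t - p‖ ≤ 111 / 100 * ‖v (t + 1) - p‖ := by
    intro t ht
    obtain ⟨h1, _⟩ := key t ht
    have h2 : ‖v (t + 1) - p‖ ≤ b := hNs (t + 1) (by omega)
    have h3 : (l : ℝ) * (α * ‖v (t + 1) - p‖ ^ (ν + 1)) ≤ 1 / 10 * ‖v (t + 1) - p‖ := by
      calc (l : ℝ) * (α * ‖v (t + 1) - p‖ ^ (ν + 1)) = α * (l * ‖v (t + 1) - p‖ ^ ν) * ‖v (t + 1) - p‖ := by ring
        _ ≤ α * (l * b ^ ν) * ‖v (t + 1) - p‖ := by gcongr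
        _ = α * δ * ‖v (t + 1) - p‖ := by rw [hlb]
        _ ≤ α * δ₁ * ‖v (t + 1) - p‖ := by gcongr
        _ ≤ 1 / 10 * ‖v (t + 1) - p‖ := mul_le_mul_of_nonneg_right hαδ (norm_nonneg _)
    have h4 : ‖v t - p‖ ≤ ‖v t - v (t + 1)‖ + ‖v (t + 1) - p‖ := by
      calc ‖v t - p‖ = ‖(v t - v (t + 1)) + (v (t + 1) - p)‖ := by congr 1; ring
        _ ≤ _ := norm_add_le _ _
    linarith
  have s1 := step T le_rfl
  have s2 := step (T + 1) (by omega)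
  have hlow : (100 / 111 : ℝ) ^ 2 * b ≤ ‖v (T + 2) - p‖ := by
    have : v (T + 1 + 1) = v (T + 2) := rfl
    rw [this] at s2
    nlinarith
  refine ⟨T + 1, hNs _ le_rfl, hNs _ (by omega), ?_⟩
  obtain ⟨_, k2⟩ := key (T + 1) (by omega)
  refine le_trans ?_ k2
  calc 9 / 10 * α * δ * ((100 / 111 : ℝ) ^ 2) ^ (ν + 1) * b = 9 / 10 * α * (l * b ^ ν) * ((100 / 111 : ℝ) ^ 2) ^ (ν + 1) * b := by rw [hlb]
    _ = 9 / 10 * (l * (α * ((100 / 111 : ℝ) ^ 2 * b) ^ (ν + 1))) := by rw [mul_pow]; ring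
    _ ≤ 9 / 10 * (l * (α * ‖v (T + 1 + 1) - p‖ ^ (ν + 1))) := by gcongr

end EG
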